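import Pool.Agent.Q173.KS.Stm
import Pool.Agent.Q130.KS.STAR
import Pool.Agent.Q277.KS.ADD
import Pool.Agent.Q153.KS.FIX
import Pool.Agent.Q182.KS.INS1
import Pool.Agent.Q186.KS.Ins
import Pool.Agent.Q223.KS.HIT
import Pool.Agent.Q149.KS.PAIRS
import Pool.Agent.Q265.KS.DIAG
import Pool.Agent.Q164.KS2.ROUND
import Pool.Agent.Q164.KS2.HALF
import Pool.Agent.Q103.KS.CONTR
import Pool.Agent.Q44.KS.Init
import Pool.Agent.Q256.KS.Phase
import Pool.Agent.Q142.KS.REL
import Pool.Agent.Q87.KS.Bis
import Pool.Agent.Q13.KS.REC
import Pool.Agent.Q77.KS.LIM
import Pool.Agent.Q186.KS.Pert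
import Pool.Agent.Q160.KS.ROOTS
import Pool.Agent.Q252.KS.SPEC
import Pool.Agent.Q123.KS.SUM
import Pool.Agent.Q160.KS.JOIN
import Pool.Agent.Q162.KS.TRANS
import Pool.Agent.Q110.KS.STEP
import Pool.Agent.Q110.KS.BOUND
import Pool.Agent.Q142.KS.PROB
import Pool.Agent.Q58.KS.FINAL

/-!
# MP_005a57_co: strong `(k, n)`-shuffles of nearly linear length

For every `k ≥ 1` there are strong `(k, n)`-shuffles of length `O(n (log n) ^ (1 + ⌊log₂ k⌋))`, in
particular `U_k^all(n) = O(n ^ (1 + ε))` for every `ε > 0`. This answers Q1.

Definitions (`Pool/Agent/Q173/KS/Prob.lean`): `outcome` (the product `T_1 ⋯ T_l` for given coins), `prob`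
(the probability of an event), `IsStrongShuffle`, `lengths` (the lengths of the strong
`(k, n)`-shuffles) and `Uall` (the least length). Since the least element of the empty set of natural
numbers is `0` in Lean, the theorem also states that `lengths k n` is not empty.

Proof. It is enough to find, for all large `N`, a list of `O(N (log N) ^ ⌊log₂ k⌋)` lazy
transpositions of two halves of size `N + k` which sends at most `k` given points into the left half
with the law of a uniform permutation, and in each half in uniformly distributed positions
(a bisection); then the halves are shuffled recursively.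
(1) Start with two halves of `N` points. A round consists of a strong `⌊k / 2⌋`-shuffle of the right
half and of the swaps of the `N` pairs `(i, i')` with probability `1 / 2`. The law of the signs (left or
right) of at most `k` points depends before and after a round only on how many of them are in
each half: only coincidences of a left and of a right point in the same pair matter, and these use
two of the `k` points (`S_HIT`, `S_ROUND`). The distance to the uniform law is multiplied by at most
`(k + k ^ 2) / N` (`S_CONTR`), since a point in a pair not full gets a fair sign.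
(2) `k` special pairs, swapped with the probabilities `(1 - μ_t) / 2`, are inserted at random places of the
halves (a star per place, `S_INS`). The law becomes exactly uniform if the elementary symmetric functions
of the `μ_t` are the first coefficients of a quotient of generating series (`S_SPEC`, `S_REL`). By the Legendre
recursion the quotient converges to the reversed Chebyshev polynomial as `N → ∞` (`S_REC`, `S_LIM`, `S_PERT`), whose
roots are real, simple and in `(-1, 1)`; so there are such `μ_t` in `[-1, 1]` for large `N` (`S_ROOTS`).
(3) The recursion `a(n) ≤ 2 a(n / 2) + C (m(n / 2 - k) + n)`, `m` for the order `⌊k / 2⌋`, gives the bound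
(`S_STEP`, `S_BOUND`).

The lemmas were proved by helper13, 44, 58, 77, 87, 103, 110, 123, 130, 142, 149, 153, 160, 162, 164, 182, 186,
223, 252, 256, 265 and 277.
-/

set_option autoImplicit false

namespace Pool.Agent.Results.MP_005a57_co.NearLinearShuffles

open Filter
open Pool.Agent.Q173.KS (IsStrongShuffle lengths Uall)

/-- Strong `(k, n)`-shuffles of length `O(n (log n) ^ (1 + ⌊log₂ k⌋))`; in particular
`U_k^all(n) = O(n ^ (1 + ε))` for all `k ≥ 1` and `ε > 0`. -/
theorem result : ∀ k : ℕ, 1 ≤ k →
    (∃ C : ℝ, ∀ n : ℕ, 2 ≤ n → k ≤ n → (lengths k n).Nonempty ∧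
      (Uall k n : ℝ) ≤ C * (n * Real.log n ^ (Nat.log 2 k + 1))) ∧
    ∀ ε : ℝ, 0 < ε → (fun n : ℕ => (Uall k n : ℝ)) =O[atTop] (fun n : ℕ => (n : ℝ) ^ (1 + ε)) := by
  have star := Pool.Agent.Q130.KS.star
  have add := Pool.Agent.Q277.KS.add star
  have fix := Pool.Agent.Q153.KS.fix
  have ins1 := Pool.Agent.Q182.KS.ins1 star
  have ins := Pool.Agent.Q186.KS.ins ins1
  have hit := Pool.Agent.Q223.KS.hit
  have pairs := Pool.Agent.Q149.KS.pairs
  have diag := Pool.Agent.Q265.KS.diag pairs
  have round := Pool.Agent.Q164.KS2.round hit diag
  have half := Pool.Agent.Q164.KS2.half pairs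
  have contr := Pool.Agent.Q103.KS.contr half
  have init := Pool.Agent.Q44.KS.init
  have phase := Pool.Agent.Q256.KS.phase round contr init
  have sum := Pool.Agent.Q123.KS.sum
  have spec := Pool.Agent.Q252.KS.spec pairs
  have rel := Pool.Agent.Q142.KS.rel
  have lim := Pool.Agent.Q77.KS.lim Pool.Agent.Q13.KS.rec
  have pert := Pool.Agent.Q186.KS.pert lim
  have roots := Pool.Agent.Q160.KS.roots
  have bis := Pool.Agent.Q87.KS.bis ins fix sum init phase spec rel pert roots
  have trans := Pool.Agent.Q162.KS.trans
  have join := Pool.Agent.Q160.KS.join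
  have step := Pool.Agent.Q110.KS.step bis join trans add
  have bound := Pool.Agent.Q110.KS.bound step add trans
  exact Pool.Agent.Q58.KS.final bound Pool.Agent.Q142.KS.prob

end Pool.Agent.Results.MP_005a57_co.NearLinearShuffles
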